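import Mathlib
import Pool.Agent.H.MP_dbd06c_co.A

namespace Pool.Agent.Results.MP_dbd06c_co.Full

open Polynomial Pool.Agent.H.MP_dbd06c_co

/-- `F 0 = F 1 = 1`, `F s = (1 + q + 2 q^2) F (s-1) + q^3 F (s-2)`. -/
noncomputable def F : ℕ → ℤ[X]
  | 0 => 1
  | 1 => 1
  | s + 2 => (1 + X + 2 * X ^ 2) * F (s + 1) + X ^ 3 * F s

/-- The coefficient sequence `a_0, …, a_d` (`d` the degree) is unimodal:
`a_0 ≤ ⋯ ≤ a_m ≥ ⋯ ≥ a_d` for some index `m`. -/
def Unimodal (p : ℤ[X]) : Prop :=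
  ∃ m ≤ p.natDegree, (∀ k < m, p.coeff k ≤ p.coeff (k + 1)) ∧
    ∀ k, m ≤ k → k < p.natDegree → p.coeff (k + 1) ≤ p.coeff k

lemma F_eq (s : ℕ) : F s = Fq X s := by
  induction s using Nat.twoStepInduction with
  | zero => rfl
  | one => rfl
  | more n h0 h1 => rw [F, Fq, h0, h1]

lemma F_rec (s k : ℕ) : (F (s + 2)).coeff k = (F (s + 1)).coeff k + (X ^ 1 * F (s + 1)).coeff k
    + 2 * (X ^ 2 * F (s + 1)).coeff k + (X ^ 3 * F s).coeff k := by
  have : F (s + 2) = F (s + 1) + X ^ 1 * F (s + 1) + C 2 * (X ^ 2 * F (s + 1)) + X ^ 3 * F s := by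
    rw [F, map_ofNat]; ring
  rw [this]
  simp only [coeff_add, coeff_C_mul]

lemma F_nonneg (s : ℕ) : ∀ k, 0 ≤ (F s).coeff k := by
  induction s using Nat.twoStepInduction with
  | zero => intro k; simp only [F, coeff_one]; split_ifs <;> simp
  | one => intro k; simp only [F, coeff_one]; split_ifs <;> simp
  | more n h0 h1 =>
    intro k
    rw [F_rec]
    simp only [coeff_X_pow_mul']
    have := h1 k
    have := h1 (k - 1)
    have := h1 (k - 2)
    have := h0 (k - 3)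
    split_ifs <;> omega

lemma F_zero (s : ℕ) : (F s).coeff 0 = 1 := by
  induction s using Nat.twoStepInduction with
  | zero => simp [F]
  | one => simp [F]
  | more n h0 h1 => rw [F_rec]; simp [coeff_X_pow_mul', h1]

lemma uni_of {p : ℤ[X]} (h0 : p.coeff 0 = 1) (hn : ∀ k, 0 ≤ p.coeff k)
    (hl : ∀ i j, j + 1 ≤ i → p.coeff (j + 1) < p.coeff j → p.coeff (i + 1) ≤ p.coeff i) :
    Unimodal p := by
  classical
  have hp : p ≠ 0 := by rintro rfl; simp at h0
  have hd : p.coeff (p.natDegree + 1) < p.coeff p.natDegree := by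
    rw [coeff_eq_zero_of_natDegree_lt (by omega)]
    exact lt_of_le_of_ne (hn _) (Ne.symm (leadingCoeff_ne_zero.2 hp))
  have hex : ∃ k, p.coeff (k + 1) < p.coeff k := ⟨_, hd⟩
  refine ⟨Nat.find hex, Nat.find_min' hex hd, fun k hk => not_lt.1 (Nat.find_min hex hk),
    fun k hk _ => ?_⟩
  rcases hk.eq_or_lt with e | e
  · rw [← e]; exact (Nat.find_spec hex).le
  · exact hl k _ e (Nat.find_spec hex)

def cl (l : List ℤ) (k : ℕ) : ℤ := l.getD k 0

lemma small (s : ℕ) (hs : s ≤ 5) (k : ℕ) : (F s).coeff k =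
    cl (([[1], [1], [1, 1, 2, 1], [1, 2, 5, 6, 5, 2], [1, 3, 9, 16, 22, 21, 13, 4],
      [1, 4, 14, 32, 58, 80, 84, 64, 32, 8]] : List (List ℤ)).getD s []) k := by
  have e0 : F 0 = 1 := rfl
  have e1 : F 1 = 1 := rfl
  have e2 : F 2 = 1 + X ^ 1 + C 2 * X ^ 2 + X ^ 3 := by
    simp only [F, map_ofNat]; ring
  have e3 : F 3 = 1 + C 2 * X ^ 1 + C 5 * X ^ 2 + C 6 * X ^ 3 + C 5 * X ^ 4 + C 2 * X ^ 5 := by
    simp only [F, map_ofNat]; ring
  have e4 : F 4 = 1 + C 3 * X ^ 1 + C 9 * X ^ 2 + C 16 * X ^ 3 + C 22 * X ^ 4 + C 21 * X ^ 5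
      + C 13 * X ^ 6 + C 4 * X ^ 7 := by
    simp only [F, map_ofNat]; ring
  have e5 : F 5 = 1 + C 4 * X ^ 1 + C 14 * X ^ 2 + C 32 * X ^ 3 + C 58 * X ^ 4 + C 80 * X ^ 5
      + C 84 * X ^ 6 + C 64 * X ^ 7 + C 32 * X ^ 8 + C 8 * X ^ 9 := by
    simp only [F, map_ofNat]; ring
  interval_cases s <;>
  simp only [e0, e1, e2, e3, e4, e5, coeff_add, coeff_C_mul, coeff_X_pow, coeff_one] <;>
  rcases k with _ | _ | _ | _ | _ | _ | _ | _ | _ | _ | k <;> simp [cl]

/-- Every `F s` has a unimodal coefficient sequence, and for `s ≥ 4` it is even log-concave. -/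
theorem result : (∀ s : ℕ, Unimodal (F s)) ∧
    ∀ s : ℕ, 4 ≤ s → ∀ k : ℕ, (F s).coeff k * (F s).coeff (k + 2) ≤ (F s).coeff (k + 1) ^ 2 := by
  constructor
  · intro s
    apply uni_of (F_zero s) (F_nonneg s)
    intro i j hij hj
    by_cases hs : s ≤ 5
    · simp only [small s hs] at hj ⊢
      by_cases hi : 10 ≤ i
      · obtain ⟨i, rfl⟩ := Nat.exists_eq_add_of_le' hi
        interval_cases s <;> simp [cl]
      · have h1 : i < 10 := by omega
        have h2 : j < 10 := by omega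
        clear hi
        revert hij hj
        revert j
        revert i
        interval_cases s <;> decide +kernel
    · obtain ⟨t, rfl⟩ : ∃ t, s = t + 1 := ⟨s - 1, by omega⟩
      have h := lc t (by omega) i j hij
      rw [← F_eq] at h
      by_contra hc
      have a := F_nonneg (t + 1) i
      have b := F_nonneg (t + 1) (j + 1)
      nlinarith
  · intro s hs k
    by_cases hs5 : s ≤ 5
    · simp only [small s hs5]
      rcases k with _ | _ | _ | _ | _ | _ | _ | _ | _ | _ | k <;> interval_cases s <;> simp [cl]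
    · obtain ⟨t, rfl⟩ : ∃ t, s = t + 1 := ⟨s - 1, by omega⟩
      have h := lc t (by omega) (k + 1) k le_rfl
      rw [← F_eq] at h
      nlinarith

end Pool.Agent.Results.MP_dbd06c_co.Full
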